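import Pool.Agent.H996Z.FS.Main

/-! For `1 < p < q < ∞` no operator generates the ideal of finitely strictly singular operators. -/

namespace Pool.Agent.Results.MP_4336d9_an.ANotSinglyGenerated

open Pool.Agent.H996Z.FS
open scoped ENNReal

theorem result (𝕜 : Type) [RCLike 𝕜] (p q : ℝ≥0∞) [Fact (1 ≤ p)] [Fact (1 ≤ q)]
    (hp : 1 < p) (hpq : p < q) (hq : q < ∞) (T : ell 𝕜 p →L[𝕜] ell 𝕜 q) :
    genIdeal T ≠ FSS 𝕜 p q :=
  not_singly hp hpq hq T

end Pool.Agent.Results.MP_4336d9_an.ANotSinglyGenerated
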